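import Pool.Agent.helper50.MA.Spec2

/-! # Project ma, module D2: algebra on `C0` -/

set_option autoImplicit false

open MeasureTheory Set Filter Topology Complex
open scoped ContDiff Real

namespace MAP

section

variable {X : Type} [TopologicalSpace X]

theorem D2_unif_add {u : ℕ → X → ℝ} {f : X → ℝ} (h : KS.Unif u f) (c : ℝ) :
    KS.Unif (fun n x => u n x + c) (fun x => f x + c) := by
  intro ε hε
  filter_upwards [h ε hε] with n hn x
  have e : u n x + c - (f x + c) = u n x - f x := by ring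
  rw [e]
  exact hn x

theorem D2_unif_conv {u u' : ℕ → X → ℝ} {f f' : X → ℝ} (h : KS.Unif u f) (h' : KS.Unif u' f') {t : ℝ}
    (h0 : 0 ≤ t) (h1 : t ≤ 1) :
    KS.Unif (fun n x => (1 - t) * u n x + t * u' n x) (fun x => (1 - t) * f x + t * f' x) := by
  intro ε hε
  filter_upwards [h ε hε, h' ε hε] with n hn hn' x
  have e : (1 - t) * u n x + t * u' n x - ((1 - t) * f x + t * f' x) =
      (1 - t) * (u n x - f x) + t * (u' n x - f' x) := by ring
  rw [e]
  have a1 := hn x
  have a2 := hn' x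
  have a3 := abs_add_le ((1 - t) * (u n x - f x)) (t * (u' n x - f' x))
  rw [abs_mul, abs_mul, abs_of_nonneg (by linarith : (0 : ℝ) ≤ 1 - t), abs_of_nonneg h0] at a3
  have a4 : (1 - t) * |u n x - f x| ≤ (1 - t) * ε := mul_le_mul_of_nonneg_left a1 (by linarith)
  have a5 : t * |u' n x - f' x| ≤ t * ε := mul_le_mul_of_nonneg_left a2 h0
  linarith

theorem D2_seq [CompactSpace X] [T2Space X] (hR3 : R3_stmt) (K : KS X) {f : X → ℝ} (hf : f ∈ K.C0) :
    ∃ u : ℕ → X → ℝ, (∀ n, u n ∈ K.PS) ∧ KS.Unif u f := by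
  have h := fun n : ℕ => hR3 X K f hf (1 / ((n : ℝ) + 1)) (by positivity)
  choose u hu hu' using h
  refine ⟨u, hu, fun ε hε => ?_⟩
  have h1 : Tendsto (fun n : ℕ => 1 / ((n : ℝ) + 1)) atTop (𝓝 0) := tendsto_one_div_add_atTop_nhds_zero_nat
  filter_upwards [h1.eventually (ge_mem_nhds hε)] with n hn x
  exact (hu' n x).trans hn

end

theorem D2_thm (hD1 : D1_stmt) (hR3 : R3_stmt) (hS9 : S9_stmt) (hS10 : S10_stmt) (hA1 : A1_stmt) : D2_stmt := by
  intro X _ _ _ _ _ _ K
  obtain ⟨hMc, hMs⟩ := hD1 X K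
  obtain ⟨s1, s2, s3, s4, s5, s6, s7, s8⟩ := hS9 X K
  -- (1) constants
  have c1 : ∀ f ∈ K.C0, ∀ c : ℝ, (fun x => f x + c) ∈ K.C0 := by
    intro f hf c
    refine ⟨hf.1.add continuous_const, fun i => ?_⟩
    obtain ⟨-, -, -, h4, -, -, -⟩ := hA1 (K.e i).target (K.e i).open_target _ _ (hf.2 i) (hf.2 i)
    obtain ⟨-, -, -, -, -, h6, -⟩ := hA1 (K.e i).target (K.e i).open_target _ _ (h4 c) (h4 c)
    refine h6 _ fun y _ => ?_
    simp only [KS.pot]
    ring
  -- (2) maxima
  have c2 : ∀ f ∈ K.C0, ∀ g ∈ K.C0, (fun x => max (f x) (g x)) ∈ K.C0 := by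
    intro f hf g hg
    refine ⟨hf.1.max hg.1, fun i => ?_⟩
    obtain ⟨h1, -⟩ := hA1 (K.e i).target (K.e i).open_target _ _ (hf.2 i) (hg.2 i)
    obtain ⟨-, -, -, -, -, h6, -⟩ := hA1 (K.e i).target (K.e i).open_target _ _ h1 h1
    refine h6 _ fun y _ => ?_
    simp only [KS.pot]
    rw [max_add_add_left]
  -- (3) convex combinations
  have c3 : ∀ f ∈ K.C0, ∀ g ∈ K.C0, ∀ t : ℝ, 0 ≤ t → t ≤ 1 → (fun x => (1 - t) * f x + t * g x) ∈ K.C0 := by
    intro f hf g hg t ht0 ht1
    refine ⟨(continuous_const.mul hf.1).add (continuous_const.mul hg.1), fun i => ?_⟩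
    obtain ⟨-, -, a3, -⟩ := hA1 (K.e i).target (K.e i).open_target _ _ (hf.2 i) (hf.2 i)
    obtain ⟨-, -, b3, -⟩ := hA1 (K.e i).target (K.e i).open_target _ _ (hg.2 i) (hg.2 i)
    obtain ⟨-, d2, -⟩ := hA1 (K.e i).target (K.e i).open_target _ _ (a3 (1 - t) (by linarith)) (b3 t ht0)
    obtain ⟨-, -, -, -, -, h6, -⟩ := hA1 (K.e i).target (K.e i).open_target _ _ d2 d2
    refine h6 _ fun y _ => ?_
    simp only [KS.pot]
    ring
  -- uniqueness
  have hMC : ∀ f ∈ K.C0, ∀ g ∈ K.C0, K.IsMc f g (K.M f g) := fun f hf g hg => (hMc f hf g hg).1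
  have huniq : ∀ f ∈ K.C0, ∀ g ∈ K.C0, ∀ ν, K.IsMc f g ν → ν = K.M f g := fun f hf g hg => (hMc f hf g hg).2
  have hfin : ∀ f ∈ K.C0, ∀ g ∈ K.C0, IsFiniteMeasure (K.M f g) := fun f hf g hg => (hMC f hf g hg).1
  refine ⟨c1, c2, c3, ?_, ?_, ?_⟩
  · intro f hf g hg
    refine ⟨hfin f hf g hg, ?_, ?_⟩
    · refine huniq g hg f hf _ ⟨hfin f hf g hg, fun u v hu hv hug hvf h hh => ?_⟩
      have h1 := (hMC f hf g hg).2 v u hv hu hvf hug h hh
      refine h1.congr fun n => ?_
      rw [(s4 (v n) (hv n) (u n) (hu n)).2]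
    · obtain ⟨u, hu, huf⟩ := D2_seq hR3 K hf
      obtain ⟨v, hv, hvg⟩ := D2_seq hR3 K hg
      have h1 := (hMC f hf g hg).2 u v hu hv huf hvg (fun _ => 1) continuous_const
      have e : ∀ ν : Measure X, ∫ _x, (1 : ℝ) ∂ν = ν.real univ := by
        intro ν
        rw [integral_const, smul_eq_mul, mul_one]
      simp only [e] at h1
      have h2 : (fun n => (K.Ms (u n) (v n)).real univ) =
          fun _ => (K.Ms (fun _ => 0) (fun _ => 0)).real univ := by
        funext n
        exact hS10 X K (u n) (hu n) (v n) (hv n)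
      rw [h2] at h1
      exact (tendsto_nhds_unique h1 tendsto_const_nhds)
  · intro f hf f' hf' g hg t ht0 ht1 A hA
    set W : X → ℝ := fun x => (1 - t) * f x + t * f' x with hW
    have hWC : W ∈ K.C0 := c3 f hf f' hf' t ht0 ht1
    have hf1 := hfin f hf g hg
    have hf2 := hfin f' hf' g hg
    set ν : Measure X := ENNReal.ofReal (1 - t) • K.M f g + ENNReal.ofReal t • K.M f' g with hν
    have hint : ∀ (m1 m2 : Measure X), IsFiniteMeasure m1 → IsFiniteMeasure m2 → ∀ h : X → ℝ, Continuous h →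
        ∫ x, h x ∂(ENNReal.ofReal (1 - t) • m1 + ENNReal.ofReal t • m2) =
          (1 - t) * ∫ x, h x ∂m1 + t * ∫ x, h x ∂m2 := by
      intro m1 m2 i1 i2 h hh
      have k1 : Integrable h m1 := hh.integrable_of_hasCompactSupport (HasCompactSupport.of_compactSpace h)
      have k2 : Integrable h m2 := hh.integrable_of_hasCompactSupport (HasCompactSupport.of_compactSpace h)
      rw [integral_add_measure (k1.smul_measure ENNReal.ofReal_ne_top) (k2.smul_measure ENNReal.ofReal_ne_top),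
        integral_smul_measure, integral_smul_measure, ENNReal.toReal_ofReal (by linarith),
        ENNReal.toReal_ofReal ht0, smul_eq_mul, smul_eq_mul]
    have hνfin : IsFiniteMeasure ν := by
      have i1 : IsFiniteMeasure (ENNReal.ofReal (1 - t) • K.M f g) :=
        Measure.smul_finite _ ENNReal.ofReal_ne_top
      have i2 : IsFiniteMeasure (ENNReal.ofReal t • K.M f' g) :=
        Measure.smul_finite _ ENNReal.ofReal_ne_top
      rw [hν]
      infer_instance
    -- the integrals agree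
    obtain ⟨u, hu, huf⟩ := D2_seq hR3 K hf
    obtain ⟨u', hu', huf'⟩ := D2_seq hR3 K hf'
    obtain ⟨v, hv, hvg⟩ := D2_seq hR3 K hg
    have hkey : ∀ h : X → ℝ, Continuous h → ∫ x, h x ∂K.M W g = ∫ x, h x ∂ν := by
      intro h hh
      have l1 := (hMC W hWC g hg).2 (fun n x => (1 - t) * u n x + t * u' n x) v
        (fun n => s3 _ (hu n) _ (hu' n) t ht0 ht1) hv (D2_unif_conv huf huf' ht0 ht1) hvg h hh
      have l2 := (hMC f hf g hg).2 u v hu hv huf hvg h hh
      have l3 := (hMC f' hf' g hg).2 u' v hu' hv huf' hvg h hh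
      have l4 := (l2.const_mul (1 - t)).add (l3.const_mul t)
      have e : ∀ n, ∫ x, h x ∂K.Ms (fun x => (1 - t) * u n x + t * u' n x) (v n) =
          (1 - t) * ∫ x, h x ∂K.Ms (u n) (v n) + t * ∫ x, h x ∂K.Ms (u' n) (v n) := by
        intro n
        have i0 := (s4 _ (s3 _ (hu n) _ (hu' n) t ht0 ht1) (v n) (hv n)).1
        have i1 := (s4 (u n) (hu n) (v n) (hv n)).1
        have i2 := (s4 (u' n) (hu' n) (v n) (hv n)).1
        rw [← hint _ _ i1 i2 h hh]
        congr 1
        refine Measure.ext fun B hB => ?_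
        have k := s5 (u n) (hu n) (u' n) (hu' n) (v n) (hv n) t ht0 ht1 B hB
        rw [Measure.add_apply, Measure.smul_apply, Measure.smul_apply, smul_eq_mul, smul_eq_mul]
        rw [← ENNReal.toReal_eq_toReal_iff' (measure_ne_top _ _) (by finiteness), ENNReal.toReal_add
          (by finiteness) (by finiteness), ENNReal.toReal_mul, ENNReal.toReal_mul,
          ENNReal.toReal_ofReal (by linarith), ENNReal.toReal_ofReal ht0]
        exact k
      have l5 : Tendsto (fun n => ∫ x, h x ∂K.Ms (fun x => (1 - t) * u n x + t * u' n x) (v n)) atTop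
          (𝓝 ((1 - t) * ∫ x, h x ∂K.M f g + t * ∫ x, h x ∂K.M f' g)) := l4.congr fun n => (e n).symm
      rw [tendsto_nhds_unique l1 l5, hν, hint _ _ hf1 hf2 h hh]
    have hνM : ν = K.M W g := by
      refine huniq W hWC g hg ν ⟨hνfin, fun w w' hw hw' hwW hw'g h hh => ?_⟩
      rw [← hkey h hh]
      exact (hMC W hWC g hg).2 w w' hw hw' hwW hw'g h hh
    have hfW := hfin W hWC g hg
    rw [← hνM, hν, Measure.real, Measure.add_apply, Measure.smul_apply, Measure.smul_apply, smul_eq_mul,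
      smul_eq_mul, ENNReal.toReal_add (by finiteness) (by finiteness), ENNReal.toReal_mul, ENNReal.toReal_mul,
      ENNReal.toReal_ofReal (by linarith), ENNReal.toReal_ofReal ht0]
    rfl
  · intro f hf g hg c
    refine (huniq _ (c1 f hf c) g hg _ ⟨hfin f hf g hg, fun u v hu hv huf hvg h hh => ?_⟩).symm
    have hu' : ∀ n, (fun x => u n x + -c) ∈ K.PS := fun n => s2 (u n) (hu n) (-c)
    have huf' : KS.Unif (fun n x => u n x + -c) f := by
      have h1 := D2_unif_add huf (-c)
      have e : (fun x => f x + c + -c) = f := by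
        funext x
        ring
      rwa [e] at h1
    have h1 := (hMC f hf g hg).2 (fun n x => u n x + -c) v hu' hv huf' hvg h hh
    refine h1.congr fun n => ?_
    rw [s6 (u n) (hu n) (v n) (hv n) (-c)]

end MAP
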