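import Pool.Agent.helper50.MA.SpecF

/-! # Project ma, module F11: uniform tail estimate -/

set_option autoImplicit false

open MeasureTheory Set Filter Topology
open scoped Real ENNReal

namespace MAP

theorem F11 : F11_stmt := by
  intro X _ _ _ ν hν f hcont hint hdec hneg C hC ε hε
  set G : X → ℝ≥0∞ := fun x => ⨆ j, ENNReal.ofReal (-(f j x)) with hG
  have hmeas : ∀ j, Measurable fun x => ENNReal.ofReal (-(f j x)) := fun j =>
    ENNReal.measurable_ofReal.comp (hcont j).measurable.neg
  have hmono : Monotone fun j x => ENNReal.ofReal (-(f j x)) := by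
    refine monotone_nat_of_le_succ fun j x => ?_
    exact ENNReal.ofReal_le_ofReal (neg_le_neg (hdec j x))
  have hGint : ∫⁻ x, G x ∂ν ≠ ∞ := by
    rw [hG, lintegral_iSup hmeas hmono]
    have h1 : ⨆ j, ∫⁻ x, ENNReal.ofReal (-(f j x)) ∂ν ≤ ENNReal.ofReal C := by
      refine iSup_le fun j => ?_
      have hi : Integrable (fun x => -(f j x)) ν := (hint j).neg
      have hnn : 0 ≤ᵐ[ν] fun x => -(f j x) :=
        Eventually.of_forall fun x => neg_nonneg.mpr (hneg j x)
      rw [← ofReal_integral_eq_lintegral_ofReal hi hnn]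
      exact ENNReal.ofReal_le_ofReal (hC j)
    exact ne_top_of_le_ne_top ENNReal.ofReal_ne_top h1
  have hGm : Measurable G := Measurable.iSup hmeas
  -- the tails
  set s : ℕ → Set X := fun n => {x | ENNReal.ofReal ((n : ℝ) / 2) ≤ G x} with hs
  have hs0 : Tendsto (ν ∘ s) atTop (𝓝 0) := by
    have hlim : Tendsto (fun n : ℕ => (∫⁻ x, G x ∂ν) / ENNReal.ofReal ((n : ℝ) / 2)) atTop (𝓝 0) := by
      have h1 : Tendsto (fun n : ℕ => ENNReal.ofReal ((n : ℝ) / 2)) atTop (𝓝 ∞) := by
        refine ENNReal.tendsto_ofReal_atTop.comp ?_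
        exact tendsto_natCast_atTop_atTop.atTop_div_const (by norm_num)
      have h2 := ENNReal.Tendsto.const_div (a := ∫⁻ x, G x ∂ν) h1 (Or.inr hGint)
      rwa [ENNReal.div_top] at h2
    refine tendsto_of_tendsto_of_tendsto_of_le_of_le' tendsto_const_nhds hlim
      (Eventually.of_forall fun n => bot_le) ?_
    filter_upwards [eventually_gt_atTop 0] with n hn
    have hpos : ENNReal.ofReal ((n : ℝ) / 2) ≠ 0 := by
      rw [ne_eq, ENNReal.ofReal_eq_zero, not_le]
      positivity
    exact meas_ge_le_lintegral_div hGm.aemeasurable hpos ENNReal.ofReal_ne_top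
  have htail := tendsto_setLIntegral_zero hGint hs0
  have hev := htail.eventually (gt_mem_nhds (show (0 : ℝ≥0∞) < ENNReal.ofReal (ε / 2) by
    rw [ENNReal.ofReal_pos]; linarith))
  obtain ⟨n, hn⟩ := (hev.and (eventually_gt_atTop 0)).exists
  refine ⟨n, fun N hN j => ?_⟩
  have hn0 : (0 : ℝ) < n := by exact_mod_cast hn.2
  have hN0 : 0 < N := lt_of_lt_of_le hn0 hN
  set A : Set X := {x | f j x ≤ -(N / 2)} with hA
  have hAm : MeasurableSet A := measurableSet_le (hcont j).measurable measurable_const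
  have hAG : ∀ x ∈ A, ENNReal.ofReal (N / 2) ≤ G x := by
    intro x hx
    have h1 : f j x ≤ -(N / 2) := hx
    refine le_trans (ENNReal.ofReal_le_ofReal ?_) (le_iSup (fun j => ENNReal.ofReal (-(f j x))) j)
    linarith
  have hAs : A ⊆ s n := fun x hx => le_trans (ENNReal.ofReal_le_ofReal (by linarith)) (hAG x hx)
  have h1 : ENNReal.ofReal (N / 2) * ν A ≤ ENNReal.ofReal (ε / 2) := by
    calc ENNReal.ofReal (N / 2) * ν A = ∫⁻ x in A, ENNReal.ofReal (N / 2) ∂ν := by
          rw [setLIntegral_const]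
      _ ≤ ∫⁻ x in A, G x ∂ν := setLIntegral_mono' hAm hAG
      _ ≤ ∫⁻ x in s n, G x ∂ν := lintegral_mono_set hAs
      _ ≤ ENNReal.ofReal (ε / 2) := hn.1.le
  have h2 := ENNReal.toReal_mono ENNReal.ofReal_ne_top h1
  rw [ENNReal.toReal_mul, ENNReal.toReal_ofReal (by positivity), ENNReal.toReal_ofReal (by positivity)] at h2
  rw [Measure.real]
  linarith

end MAP
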