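import Pool.Agent.helper50.MA.SpecF

/-! # Project ma, module F8: the obstacle solutions and their joint weak convergence -/

set_option autoImplicit false

open MeasureTheory Set Filter Topology
open scoped ContDiff Real

namespace MAP

/-- the property of the obstacle solution -/
def F8_ob {X : Type} [TopologicalSpace X] [MeasurableSpace X] (T : MATh X) (Ω : Set X) (ψ o a : X → ℝ) : Prop :=
  a ∈ T.C0 ∧ (∀ x, ψ x ≤ a x) ∧ (∀ x, x ∉ Ω → a x = ψ x) ∧ (∀ x ∈ Ω, a x ≤ o x) ∧
      (∀ v ∈ T.C0, (∀ x, x ∉ Ω → v x ≤ ψ x) → (∀ x ∈ Ω, v x ≤ o x) → ∀ x, v x ≤ a x) ∧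
      T.M a a {x | x ∈ Ω ∧ a x < o x} = 0

theorem F8_anti {X : Type} {f : ℕ → X → ℝ} (h : ∀ j x, f (j + 1) x ≤ f j x) {j j' : ℕ} (hj : j ≤ j') (x : X) :
    f j' x ≤ f j x :=
  antitone_nat_of_succ_le (f := fun j => f j x) (fun j => h j x) hj

theorem F8 (hF2 : F2_stmt) : F8_stmt := by
  intro X _ _ _ _ _ _ T φ μ hμ hD f hf hdec hneg Ω hΩ
  have hex : ∀ N j j' : ℕ, ∃ a : X → ℝ, j ≤ j' → F8_ob T Ω (f j') (fun x => max (f j x) (-(N : ℝ))) a := by
    intro N j j'
    by_cases hjj : j ≤ j'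
    · obtain ⟨a, ha⟩ := T.obst Ω hΩ (f j') (hf j') (fun x => max (f j x) (-(N : ℝ)))
        ((T.cont _ (hf j)).max continuous_const)
        (fun x _ => (F8_anti hdec.1 hjj x).trans (le_max_left _ _))
      exact ⟨a, fun _ => ⟨ha.1, ha.2.1, ha.2.2.1, ha.2.2.2.1, ha.2.2.2.2.1, ha.2.2.2.2.2⟩⟩
    · exact ⟨f j', fun h => absurd h hjj⟩
  choose a ha using hex
  refine ⟨a, fun N j j' hjj => ?_, ?_⟩
  · obtain ⟨h1, h2, h3, h4, _, h6⟩ := ha N j j' hjj
    exact ⟨h1, h2, h3, h4, h6⟩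
  · intro h hcont ε hε
    by_contra hcon
    push Not at hcon
    choose Nf hNf jf hjf jf' hjf' hbad using hcon
    -- thresholds
    let s : ℕ → ℕ := fun i => Nat.rec 0 (fun _ m => max (Nf m) (jf' m) + 1) i
    have hs : ∀ i, s (i + 1) = max (Nf (s i)) (jf' (s i)) + 1 := fun i => rfl
    have hsi : ∀ i, i ≤ s i := by
      intro i
      induction i with
      | zero => exact Nat.zero_le _
      | succ i ih =>
        rw [hs]
        have h1 := hNf (s i)
        have h2 := le_max_left (Nf (s i)) (jf' (s i))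
        omega
    have hN : ∀ i, Nf (s i) ≤ Nf (s (i + 1)) := by
      intro i
      have h1 := hNf (s (i + 1))
      rw [hs] at h1 ⊢
      have h2 := le_max_left (Nf (s i)) (jf' (s i))
      omega
    have hj' : ∀ i, jf' (s i) ≤ jf (s (i + 1)) := by
      intro i
      have h1 := hjf (s (i + 1))
      rw [hs] at h1 ⊢
      have h2 := le_max_right (Nf (s i)) (jf' (s i))
      omega
    have hj : ∀ i, jf (s i) ≤ jf (s (i + 1)) := fun i => (hjf' (s i)).trans (hj' i)
    have hj'' : ∀ i, jf' (s i) ≤ jf' (s (i + 1)) := fun i => (hj' i).trans (hjf' (s (i + 1)))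
    set v : ℕ → X → ℝ := fun i => a (Nf (s i)) (jf (s i)) (jf' (s i)) with hv
    have hvo : ∀ i, F8_ob T Ω (f (jf' (s i))) (fun x => max (f (jf (s i)) x) (-(Nf (s i) : ℝ))) (v i) :=
      fun i => ha _ _ _ (hjf' (s i))
    have hv0 : ∀ i, v i ∈ T.C0 := fun i => (hvo i).1
    have hup : ∀ i x, v i x ≤ max (f (jf (s i)) x) (-(Nf (s i) : ℝ)) := by
      intro i x
      by_cases hx : x ∈ Ω
      · exact (hvo i).2.2.2.1 x hx
      · rw [(hvo i).2.2.1 x hx]
        exact (F8_anti hdec.1 (hjf' (s i)) x).trans (le_max_left _ _)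
    have hdecv : ∀ i x, v (i + 1) x ≤ v i x := by
      intro i
      refine (hvo i).2.2.2.2.1 (v (i + 1)) (hv0 (i + 1)) (fun x hx => ?_) (fun x _ => ?_)
      · rw [(hvo (i + 1)).2.2.1 x hx]
        exact F8_anti hdec.1 (hj'' i) x
      · refine (hup (i + 1) x).trans (max_le_max (F8_anti hdec.1 (hj i) x) ?_)
        have : (Nf (s i) : ℝ) ≤ Nf (s (i + 1)) := by exact_mod_cast hN i
        linarith
    have hjt : Tendsto (fun i => jf (s i)) atTop atTop :=
      tendsto_atTop_mono (fun i => (hsi i).trans (hjf (s i))) tendsto_id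
    have hjt' : Tendsto (fun i => jf' (s i)) atTop atTop :=
      tendsto_atTop_mono (fun i => hjf' (s i)) hjt
    have hNt : Tendsto (fun i => Nf (s i)) atTop atTop :=
      tendsto_atTop_mono (fun i => (hsi i).trans (hNf (s i))) tendsto_id
    have hconv : ∀ x, Tendsto (fun i => ((v i x : ℝ) : EReal)) atTop (𝓝 (φ x)) := by
      intro x
      have h1 : Tendsto (fun i => ((f (jf' (s i)) x : ℝ) : EReal)) atTop (𝓝 (φ x)) := (hdec.2 x).comp hjt'
      have h2 : Tendsto (fun i => ((f (jf (s i)) x : ℝ) : EReal)) atTop (𝓝 (φ x)) := (hdec.2 x).comp hjt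
      have h3 : Tendsto (fun i => ((-(Nf (s i) : ℝ) : ℝ) : EReal)) atTop (𝓝 ⊥) := by
        refine EReal.tendsto_coe_atBot.comp ?_
        exact tendsto_neg_atTop_atBot.comp (tendsto_natCast_atTop_atTop.comp hNt)
      have h4 := h2.max h3
      rw [max_bot_right] at h4
      refine tendsto_of_tendsto_of_tendsto_of_le_of_le h1 h4 (fun i => ?_) (fun i => ?_)
      · exact EReal.coe_le_coe_iff.mpr ((hvo i).2.1 x)
      · have h5 := EReal.coe_le_coe_iff.mpr (hup i x)
        rwa [EReal.coe_strictMono.monotone.map_max] at h5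
    have hlim := hF2 X T φ μ hμ hD v hv0 ⟨hdecv, hconv⟩ h hcont
    rw [Metric.tendsto_atTop] at hlim
    obtain ⟨i, hi⟩ := hlim ε hε
    have h1 := hi i le_rfl
    have h2 := hbad (s i)
    rw [Real.dist_eq] at h1
    exact absurd h1 (not_lt.mpr h2.le)

end MAP
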