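import Pool.Agent.helper50.MA.Spec2
import Pool.Agent.helper46.MA.B1
import Pool.Agent.helper13.MA.A8

/-! # Project ma, module O5: local data at a point -/

set_option autoImplicit false

open MeasureTheory Set Filter Topology Complex
open scoped ContDiff Real

namespace MAP

noncomputable section

theorem O5_lap_congr {u v : C2 → ℝ} {y : C2} (h : u =ᶠ[𝓝 y] v) (ξ : C2) : lap u y ξ = lap v y ξ := by
  have h1 : fderiv ℝ u =ᶠ[𝓝 y] fderiv ℝ v := h.fderiv
  unfold lap D2
  rw [h1.fderiv_eq]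

theorem O5_lap_quad (k : ℝ) (z y ξ : C2) : lap (fun y => k * nsq (y - z)) y ξ = 4 * k * nsq ξ := by
  have h1 : ∀ y : C2, HasFDerivAt (fun y => k * nsq (y - z)) (k • B1aux.nsqL (y - z)) y := by
    intro y
    have a1 : HasFDerivAt (fun y : C2 => y - z) (ContinuousLinearMap.id ℝ C2) y := (hasFDerivAt_id y).sub_const z
    have a2 := (B1aux.hasFDerivAt_nsq (y - z)).comp y a1
    rw [ContinuousLinearMap.comp_id] at a2
    exact a2.const_mul k
  have h2 : fderiv ℝ (fun y => k * nsq (y - z)) = fun y => k • B1aux.nsqL (y - z) :=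
    funext fun y => (h1 y).fderiv
  have h3 : HasFDerivAt (fun y : C2 => k • B1aux.nsqL (y - z)) (k • B1aux.nsqL) y := by
    have a1 : HasFDerivAt (fun y : C2 => y - z) (ContinuousLinearMap.id ℝ C2) y := (hasFDerivAt_id y).sub_const z
    have a2 := (B1aux.nsqL.hasFDerivAt (x := y - z)).comp y a1
    rw [ContinuousLinearMap.comp_id] at a2
    exact a2.const_smul k
  have h4 : fderiv ℝ (fderiv ℝ (fun y => k * nsq (y - z))) y = k • B1aux.nsqL := by
    rw [h2]
    exact h3.fderiv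
  unfold lap D2
  rw [h4]
  simp only [smul_apply, B1aux.nsqL_apply]
  simp only [Prod.smul_fst, Prod.smul_snd, real_inner_self_eq_norm_sq, nsq, smul_eq_mul, norm_mul, norm_I, one_mul]
  ring

theorem O5_lap_le {u : C2 → ℝ} {y : C2} {B : ℝ} (h : ‖fderiv ℝ (fderiv ℝ u) y‖ ≤ B) (ξ : C2) :
    lap u y ξ ≤ 4 * (|B| + 1) * nsq ξ := by
  have h1 : ∀ η : C2, D2 u y η η ≤ |B| * ‖η‖ ^ 2 := by
    intro η
    unfold D2
    calc fderiv ℝ (fderiv ℝ u) y η η ≤ ‖fderiv ℝ (fderiv ℝ u) y η η‖ := Real.le_norm_self _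
      _ ≤ ‖fderiv ℝ (fderiv ℝ u) y η‖ * ‖η‖ := ContinuousLinearMap.le_opNorm _ _
      _ ≤ ‖fderiv ℝ (fderiv ℝ u) y‖ * ‖η‖ * ‖η‖ :=
          mul_le_mul_of_nonneg_right (ContinuousLinearMap.le_opNorm _ _) (norm_nonneg _)
      _ ≤ |B| * ‖η‖ * ‖η‖ := by
          refine mul_le_mul_of_nonneg_right (mul_le_mul_of_nonneg_right (h.trans (le_abs_self B)) (norm_nonneg _))
            (norm_nonneg _)
      _ = _ := by ring
  have h2 : ‖I • ξ‖ = ‖ξ‖ := by rw [norm_smul, norm_I, one_mul]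
  have h3 := h1 ξ
  have h4 := h1 (I • ξ)
  rw [h2] at h4
  have h5 := B1aux.norm_sq_le_nsq ξ
  have h6 := B1aux.nsq_nonneg ξ
  have h7 : |B| * ‖ξ‖ ^ 2 ≤ |B| * nsq ξ := mul_le_mul_of_nonneg_left h5 (abs_nonneg B)
  have h8 : 0 ≤ |B| * nsq ξ := mul_nonneg (abs_nonneg B) h6
  unfold lap
  nlinarith

/-- smooth cut-off: 1 if `nsq (y - z) ≤ a`, 0 if `b ≤ nsq (y - z)` -/
def O5_cut (z : C2) (a b : ℝ) (y : C2) : ℝ := Real.smoothTransition ((b - nsq (y - z)) / (b - a))

theorem O5_nsq_smooth (z : C2) : ContDiff ℝ ∞ (fun y : C2 => nsq (y - z)) := by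
  unfold nsq
  exact ((contDiff_fst.comp (contDiff_id.sub contDiff_const)).norm_sq ℝ).add
    ((contDiff_snd.comp (contDiff_id.sub contDiff_const)).norm_sq ℝ)

theorem O5_cut_smooth (z : C2) (a b : ℝ) : ContDiff ℝ ∞ (O5_cut z a b) :=
  Real.smoothTransition.contDiff.comp ((contDiff_const.sub (O5_nsq_smooth z)).div_const _)

theorem O5_cut_nonneg (z : C2) (a b : ℝ) (y : C2) : 0 ≤ O5_cut z a b y := Real.smoothTransition.nonneg _

theorem O5_cut_le (z : C2) (a b : ℝ) (y : C2) : O5_cut z a b y ≤ 1 := Real.smoothTransition.le_one _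

theorem O5_cut_one {z : C2} {a b : ℝ} (hab : a < b) {y : C2} (h : nsq (y - z) ≤ a) : O5_cut z a b y = 1 := by
  refine Real.smoothTransition.one_of_one_le ?_
  rw [le_div_iff₀ (by linarith)]
  linarith

theorem O5_cut_zero {z : C2} {a b : ℝ} (hab : a < b) {y : C2} (h : b ≤ nsq (y - z)) : O5_cut z a b y = 0 := by
  refine Real.smoothTransition.zero_of_nonpos ?_
  exact div_nonpos_of_nonpos_of_nonneg (by linarith) (by linarith)

theorem O5_supp {z : C2} {r : ℝ} (hr : 0 ≤ r) {h : C2 → ℝ} (h0 : ∀ y, r ^ 2 ≤ nsq (y - z) → h y = 0) :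
    tsupport h ⊆ cbal z r ∧ HasCompactSupport h := by
  have h1 : tsupport h ⊆ cbal z r := by
    refine closure_minimal (fun y hy => ?_) (A8_cbal_compact z r hr).isClosed
    by_contra hcon
    have h2 : r ^ 2 < nsq (y - z) := not_le.mp hcon
    exact hy (h0 y h2.le)
  exact ⟨h1, (A8_cbal_compact z r hr).of_isClosed_subset (isClosed_tsupport h) h1⟩

open Classical in
/-- the truncated distance -/
def O5_d {X : Type} [TopologicalSpace X] (e : OpenPartialHomeomorph X C2) (z : C2) (r : ℝ) (x : X) : ℝ :=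
  if x ∈ e.source ∧ nsq (e x - z) ≤ (3 * r) ^ 2 then Real.sqrt (nsq (e x - z)) else 3 * r

theorem O5_d_cont {X : Type} [TopologicalSpace X] [T2Space X] (e : OpenPartialHomeomorph X C2) (z : C2) {r : ℝ}
    (hr : 0 < r) (hsub : cbal z (3 * r) ⊆ e.target) : Continuous (O5_d e z r) := by
  classical
  have hK : IsCompact (e.symm '' cbal z (3 * r)) :=
    (A8_cbal_compact z (3 * r) (by linarith)).image_of_continuousOn (e.continuousOn_symm.mono hsub)
  have hout : ∀ x, x ∉ e.symm '' cbal z (3 * r) → O5_d e z r x = 3 * r := by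
    intro x hx
    unfold O5_d
    rw [if_neg]
    rintro ⟨h1, h2⟩
    exact hx ⟨e x, h2, e.left_inv h1⟩
  have hin : ∀ x ∈ e.source, O5_d e z r x = min (Real.sqrt (nsq (e x - z))) (3 * r) := by
    intro x hx
    unfold O5_d
    by_cases h : nsq (e x - z) ≤ (3 * r) ^ 2
    · rw [if_pos ⟨hx, h⟩, min_eq_left]
      exact (Real.sqrt_le_left (by linarith)).mpr h
    · rw [if_neg (fun h' => h h'.2), min_eq_right]
      exact Real.le_sqrt_of_sq_le (not_le.mp h).le
  rw [continuous_iff_continuousAt]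
  intro x
  by_cases hx : x ∈ e.source
  · have h1 : ContinuousOn (fun x => min (Real.sqrt (nsq (e x - z))) (3 * r)) e.source := by
      have h2 : ContinuousOn (fun x => nsq (e x - z)) e.source :=
        A8_nsq_cont.comp_continuousOn (e.continuousOn.sub continuousOn_const)
      have h3 : ContinuousOn (fun x => Real.sqrt (nsq (e x - z))) e.source := ContinuousOn.sqrt h2
      exact ContinuousOn.inf h3 continuousOn_const
    refine ContinuousOn.continuousAt (h1.congr hin) (e.open_source.mem_nhds hx)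
  · have hx' : x ∉ e.symm '' cbal z (3 * r) := by
      rintro ⟨y, hy, rfl⟩
      exact hx (e.map_target (hsub hy))
    have h0 : (e.symm '' cbal z (3 * r))ᶜ ∈ 𝓝 x := hK.isClosed.isOpen_compl.mem_nhds hx'
    have h1 : ∀ᶠ x' in 𝓝 x, O5_d e z r x' = 3 * r := by
      filter_upwards [h0] with x' h
      exact hout x' h
    exact ContinuousAt.congr continuousAt_const (h1.mono fun _ h => h.symm)

theorem O5_d_lt {X : Type} [TopologicalSpace X] (e : OpenPartialHomeomorph X C2) (z : C2) {r s : ℝ}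
    (hs : 0 < s) (hsr : s < 3 * r) (x : X) :
    O5_d e z r x < s ↔ x ∈ e.source ∧ nsq (e x - z) < s ^ 2 := by
  classical
  unfold O5_d
  by_cases h : x ∈ e.source ∧ nsq (e x - z) ≤ (3 * r) ^ 2
  · rw [if_pos h, Real.sqrt_lt' hs]
    exact ⟨fun h' => ⟨h.1, h'⟩, fun h' => h'.2⟩
  · rw [if_neg h]
    constructor
    · intro h'
      linarith
    · rintro ⟨h1, h2⟩
      exfalso
      apply h
      refine ⟨h1, h2.le.trans ?_⟩
      exact pow_le_pow_left₀ hs.le hsr.le 2

theorem O5_d_le {X : Type} [TopologicalSpace X] (e : OpenPartialHomeomorph X C2) (z : C2) {r s : ℝ}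
    (hs : 0 < s) (hsr : s < 3 * r) (x : X) (hx : O5_d e z r x ≤ s) :
    x ∈ e.source ∧ nsq (e x - z) ≤ s ^ 2 ∧ O5_d e z r x ^ 2 = nsq (e x - z) := by
  classical
  unfold O5_d at hx ⊢
  by_cases h : x ∈ e.source ∧ nsq (e x - z) ≤ (3 * r) ^ 2
  · rw [if_pos h] at hx ⊢
    exact ⟨h.1, (Real.sqrt_le_left hs.le).mp hx, Real.sq_sqrt (B1aux.nsq_nonneg _)⟩
  · rw [if_neg h] at hx
    linarith

theorem O5_small {z : C2} {U : Set C2} (hU : IsOpen U) (hz : z ∈ U) : ∃ r : ℝ, 0 < r ∧ cbal z (3 * r) ⊆ U := by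
  obtain ⟨ε, hε, hsub⟩ := Metric.isOpen_iff.mp hU z hz
  refine ⟨ε / 6, by positivity, fun y hy => hsub ?_⟩
  rw [Metric.mem_ball, dist_eq_norm]
  have h1 := A8_norm_le (y - z) (3 * (ε / 6)) (by positivity) hy
  linarith

theorem O5_le : (1 : WithTop ℕ∞) + 1 ≤ ∞ := by
  have h : ((2 : ℕ∞) : WithTop ℕ∞) ≤ ((⊤ : ℕ∞) : WithTop ℕ∞) := WithTop.coe_le_coe.mpr le_top
  have e : (1 : WithTop ℕ∞) + 1 = ((2 : ℕ∞) : WithTop ℕ∞) := by norm_num
  rw [e]
  exact h

theorem O5 (hS3 : S3_stmt) (hS5 : S5_stmt) (hD5 : D5_stmt) : O5_stmt := by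
  classical
  intro X _ _ _ _ _ _ K p
  obtain ⟨s1, -, -, s4, -, -, -, s8⟩ := hS3 X K
  obtain ⟨i, hpi, -⟩ := K.cover p
  set z : C2 := K.e i p with hz
  obtain ⟨r, hr, hsub⟩ := O5_small (K.e i).open_target ((K.e i).map_source hpi)
  rw [← hz] at hsub
  have hcb : ∀ s, 0 ≤ s → s ≤ 3 * r → cbal z s ⊆ (K.e i).target := fun s hs0 hs y hy =>
    hsub (le_trans (show nsq (y - z) ≤ s ^ 2 from hy) (pow_le_pow_left₀ hs0 hs 2))
  -- the bound for the potential
  obtain ⟨B, hB⟩ : ∃ B, ∀ y ∈ cbal z r, ‖fderiv ℝ (fderiv ℝ (K.ρ i)) y‖ ≤ B := by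
    have h1 : ContDiffOn ℝ 1 (fderiv ℝ (K.ρ i)) (K.e i).target :=
      (K.ρ_smooth i).fderiv_of_isOpen (K.e i).open_target O5_le
    have h2 : ContinuousOn (fderiv ℝ (fderiv ℝ (K.ρ i))) (K.e i).target :=
      h1.continuousOn_fderiv_of_isOpen (K.e i).open_target le_rfl
    have h3 : ContinuousOn (fun y => ‖fderiv ℝ (fderiv ℝ (K.ρ i)) y‖) (cbal z r) :=
      Continuous.comp_continuousOn (g := fun T : C2 →L[ℝ] C2 →L[ℝ] ℝ => ‖T‖)
        (continuous_norm (E := C2 →L[ℝ] C2 →L[ℝ] ℝ))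
        (h2.mono (hcb r hr.le (by linarith)))
    obtain ⟨B, hB⟩ := (A8_cbal_compact z r hr.le).bddAbove_image h3
    exact ⟨B, fun y hy => hB ⟨y, hy, rfl⟩⟩
  set k : ℝ := |B| + 1 with hk
  have hk0 : 0 < k := by positivity
  have hr2 : 0 < r ^ 2 := by positivity
  -- the functions in the chart
  set h1 : C2 → ℝ := O5_cut z ((r / 2) ^ 2) (r ^ 2) with hh1
  set h2 : C2 → ℝ := fun y => k * nsq (y - z) * O5_cut z (r ^ 2) ((2 * r) ^ 2) y with hh2
  have ha1 : (r / 2) ^ 2 < r ^ 2 := by nlinarith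
  have ha2 : r ^ 2 < (2 * r) ^ 2 := by nlinarith
  have sm1 : ContDiff ℝ ∞ h1 := O5_cut_smooth _ _ _
  have sm2 : ContDiff ℝ ∞ h2 := (contDiff_const.mul (O5_nsq_smooth z)).mul (O5_cut_smooth _ _ _)
  obtain ⟨su1, su1'⟩ := O5_supp hr.le (z := z) (h := h1) (fun y hy => O5_cut_zero ha1 hy)
  obtain ⟨su2, su2'⟩ := O5_supp (r := 2 * r) (by linarith) (z := z) (h := h2) (fun y hy => by
    rw [hh2]
    simp only
    rw [O5_cut_zero ha2 hy, mul_zero])
  set q : X → ℝ := Set.indicator (K.e i).source (fun x => h1 (K.e i x)) with hq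
  set χ : X → ℝ := Set.indicator (K.e i).source (fun x => h2 (K.e i x)) with hχ
  have smq : K.Smo q := s1 i h1 sm1 su1' (su1.trans (hcb r hr.le (by linarith)))
  have smχ : K.Smo χ := s1 i h2 sm2 su2' (su2.trans (hcb (2 * r) (by linarith) (by linarith)))
  obtain ⟨C1, hC1, hC1'⟩ := hS5 X K q smq
  obtain ⟨C, hC, hC'⟩ := hS5 X K χ smχ
  set m : ℝ := max C1 1 with hm
  have hm0 : 0 < m := lt_of_lt_of_le one_pos (le_max_right _ _)
  obtain ⟨qm1, qm2⟩ := hC1' m (le_max_left _ _)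
  have hχ0 : ∀ x, 0 ≤ χ x := by
    intro x
    rw [hχ]
    refine Set.indicator_nonneg (fun x _ => ?_) x
    exact mul_nonneg (mul_nonneg hk0.le (B1aux.nsq_nonneg _)) (O5_cut_nonneg _ _ _ _)
  refine ⟨{
    d := O5_d (K.e i) z r
    q := q
    χ := χ
    r1 := r
    K := k
    C := C
    e0 := 1 / m
    d_cont := O5_d_cont (K.e i) z hr hsub
    d_nonneg := fun x => by
      unfold O5_d
      split_ifs
      · exact Real.sqrt_nonneg _
      · linarith
    d_p := by
      unfold O5_d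
      rw [← hz, sub_self]
      have h0 : nsq (0 : C2) = 0 := by simp [nsq]
      rw [h0, if_pos ⟨hpi, by positivity⟩, Real.sqrt_zero]
    r1_pos := hr
    K_pos := hk0
    C_pos := hC
    e0_pos := by positivity
    e0_le := by
      rw [div_le_one hm0]
      exact le_max_right _ _
    ball := fun s hs0 hs => ⟨i, z, s, hs0, hcb s hs0.le (by linarith), by
      ext x
      exact O5_d_lt (K.e i) z hs0 (by linarith) x⟩
    q_cont := s4 q smq
    q_nonneg := fun x => Set.indicator_nonneg (fun x _ => O5_cut_nonneg _ _ _ _) x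
    q_le := fun x => by
      rw [hq]
      by_cases hx : x ∈ (K.e i).source
      · rw [Set.indicator_of_mem hx]
        exact O5_cut_le _ _ _ _
      · rw [Set.indicator_of_notMem hx]
        exact zero_le_one
    q_one := fun x hx => by
      obtain ⟨a1, a2, -⟩ := O5_d_le (K.e i) z (by positivity) (by linarith) x hx
      rw [hq, Set.indicator_of_mem a1]
      exact O5_cut_one ha1 a2
    q_zero := fun x hx => by
      rw [hq]
      by_cases hxs : x ∈ (K.e i).source
      · rw [Set.indicator_of_mem hxs]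
        refine O5_cut_zero ha1 ?_
        by_contra hcon
        have := (O5_d_lt (K.e i) z (r := r) hr (by linarith) x).mpr ⟨hxs, not_le.mp hcon⟩
        linarith
      · rw [Set.indicator_of_notMem hxs]
    q_mem := by
      have e : (fun x => 1 / m * q x) = fun x => q x / m := by
        funext x
        ring
      rw [e]
      exact s8 qm1
    nq_mem := by
      have e : (fun x => -(1 / m * q x)) = fun x => -(q x / m) := by
        funext x
        ring
      rw [e]
      exact s8 qm2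
    χ_cont := s4 χ smχ
    χ_nonneg := hχ0
    χ_le := fun x hx => by
      obtain ⟨a1, -, a3⟩ := O5_d_le (K.e i) z hr (by linarith) x hx
      rw [a3, hχ, Set.indicator_of_mem a1]
      have h3 := O5_cut_le z (r ^ 2) ((2 * r) ^ 2) (K.e i x)
      have h4 : 0 ≤ k * nsq (K.e i x - z) := mul_nonneg hk0.le (B1aux.nsq_nonneg _)
      exact mul_le_of_le_one_right h4 h3
    χ_mem := s8 (hC' C le_rfl).1
    χ_big := fun g hg A hA hAs => by
      refine hD5 X K χ C i (bal z r) smχ hC (hC' C le_rfl).1 (A8_bal_open z r) ?_ ?_ g hg A hA ?_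
      · intro y hy
        exact hcb r hr.le (by linarith) (le_of_lt (show nsq (y - z) < r ^ 2 from hy))
      · intro y hy ξ
        have hy' : nsq (y - z) < r ^ 2 := hy
        have h3 : K.lo i χ =ᶠ[𝓝 y] fun y => k * nsq (y - z) := by
          filter_upwards [(A8_bal_open z r).mem_nhds hy] with w hw
          have hw' : nsq (w - z) < r ^ 2 := hw
          have hwt : w ∈ (K.e i).target := hcb r hr.le (by linarith) hw'.le
          unfold KS.lo
          rw [hχ, Set.indicator_of_mem ((K.e i).map_target hwt), (K.e i).right_inv hwt, hh2]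
          simp only
          rw [O5_cut_one ha2 hw'.le, mul_one]
        rw [O5_lap_congr h3, O5_lap_quad]
        exact O5_lap_le (hB y hy'.le) ξ
      · intro x hx
        exact (O5_d_lt (K.e i) z hr (by linarith) x).mp (hAs hx) }⟩

end

end MAP
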