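import Pool.Agent.helper50.MA.Spec3

/-!
Module K2 of project ma: convolution of bounded plurisubharmonic functions.
-/

set_option autoImplicit false

open MeasureTheory Set Filter Topology Complex
open scoped ContDiff Real

namespace MAP

noncomputable section

theorem K2_haar : (volume : Measure C2).IsAddHaarMeasure :=
  inferInstanceAs ((volume : Measure ℂ).prod (volume : Measure ℂ)).IsAddHaarMeasure

attribute [local instance] K2_haar

theorem K2_norm_lt (y : C2) (h : nsq y < 1) : ‖y‖ < 1 := by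
  unfold nsq at h
  rw [Prod.norm_def, max_lt_iff]
  constructor
  · nlinarith [norm_nonneg y.1, sq_nonneg ‖y.2‖]
  · nlinarith [norm_nonneg y.2, sq_nonneg ‖y.1‖]

theorem K2_mp (θ : ℝ) : MeasurePreserving (fun ξ : C2 => cexp (θ * I) • ξ) volume volume := by
  have h1 : MeasurePreserving (rotation (Circle.exp θ)) (volume : Measure ℂ) volume :=
    (rotation (Circle.exp θ)).measurePreserving
  have h2 := h1.prod h1
  have h3 : (Prod.map (rotation (Circle.exp θ)) (rotation (Circle.exp θ))) =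
      fun ξ : C2 => cexp (θ * I) • ξ := by
    funext ξ
    ext <;> simp [rotation_apply, Circle.coe_exp]
  rw [← h3]
  exact h2

/-- the truncated function is measurable -/
theorem K2_meas {U W : Set C2} {u : C2 → ℝ} (hU : IsOpen U) (hW : IsOpen W) (hWU : W ⊆ U)
    (hu : UpperSemicontinuousOn u U) : Measurable (W.indicator u) := by
  refine measurable_of_Iio fun c => ?_
  have hopen : IsOpen (W ∩ {z | u z < c}) := by
    rw [isOpen_iff_mem_nhds]
    rintro z ⟨hz, hzc⟩
    have h1 := hu z (hWU hz) c hzc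
    rw [hU.nhdsWithin_eq (hWU hz)] at h1
    exact inter_mem (hW.mem_nhds hz) h1
  by_cases hc : 0 < c
  · have : W.indicator u ⁻¹' Iio c = (W ∩ {z | u z < c}) ∪ Wᶜ := by
      ext z
      by_cases hz : z ∈ W <;> simp [hz, hc]
    rw [this]
    exact hopen.measurableSet.union hW.measurableSet.compl
  · have : W.indicator u ⁻¹' Iio c = (W ∩ {z | u z < c}) := by
      ext z
      by_cases hz : z ∈ W <;> simp [hz, hc]
    rw [this]
    exact hopen.measurableSet

theorem K2_mul {χ G : C2 → ℝ} (hχ : Integrable χ) (hG : Measurable G) {m : ℝ}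
    (hb : ∀ y, |G y| ≤ m) : Integrable (fun y => χ y * G y) :=
  hχ.mul_bdd hG.aestronglyMeasurable (Eventually.of_forall hb)

/-- Fubini -/
theorem K2_fub {χ : C2 → ℝ} (hχ : Integrable χ) (F : C2 × ℝ → ℝ) (hF : Measurable F) {m : ℝ}
    (hb : ∀ p, |F p| ≤ m) :
    Integrable (fun y => χ y * ((2 * π)⁻¹ * ∫ θ in (0 : ℝ)..(2 * π), F (y, θ))) ∧
    (2 * π)⁻¹ * ∫ θ in (0 : ℝ)..(2 * π), (∫ y, χ y * F (y, θ)) =
      ∫ y, χ y * ((2 * π)⁻¹ * ∫ θ in (0 : ℝ)..(2 * π), F (y, θ)) := by
  have hint : Integrable (fun p : C2 × ℝ => χ p.1 * F p)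
      ((volume : Measure C2).prod (volume.restrict (Ioc (0 : ℝ) (2 * π)))) :=
    (hχ.comp_fst (ν := volume.restrict (Ioc (0 : ℝ) (2 * π)))).mul_bdd hF.aestronglyMeasurable
      (Eventually.of_forall hb)
  have hpi : (0 : ℝ) ≤ 2 * π := by positivity
  have h1 : ∀ y, χ y * ((2 * π)⁻¹ * ∫ θ in (0 : ℝ)..(2 * π), F (y, θ))
      = (2 * π)⁻¹ * ∫ θ in Ioc (0 : ℝ) (2 * π), χ y * F (y, θ) := by
    intro y
    rw [intervalIntegral.integral_of_le hpi, MeasureTheory.integral_const_mul]
    ring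
  constructor
  · simp_rw [h1]
    exact hint.integral_prod_left.const_mul _
  · simp_rw [h1]
    rw [MeasureTheory.integral_const_mul, intervalIntegral.integral_of_le hpi]
    congr 1
    exact (MeasureTheory.integral_integral_swap (f := fun y θ => χ y * F (y, θ)) hint).symm

theorem K2_supp {χ : C2 → ℝ} (hχ : IsKer χ) (y : C2) (h : χ y ≠ 0) : nsq y < 1 := by
  by_contra h1
  exact h (hχ.2.2.1 y (not_lt.1 h1))

theorem K2_integrable {χ : C2 → ℝ} (hχ : IsKer χ) : Integrable χ := by
  apply hχ.1.continuous.integrable_of_hasCompactSupport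
  refine HasCompactSupport.intro (isCompact_closedBall (0 : C2) 1) fun y hy => ?_
  by_contra h
  apply hy
  rw [mem_closedBall_zero_iff]
  exact (K2_norm_lt y (K2_supp hχ y h)).le

theorem K2_smooth {χ v : C2 → ℝ} (hχ : IsKer χ) (hv : Measurable v) {m : ℝ}
    (hb : ∀ z, |v z| ≤ m) {δ : ℝ} (hδ : 0 < δ) : ContDiff ℝ ∞ (cv χ v δ) := by
  set k : C2 → ℝ := fun w => χ (-(δ⁻¹ • w)) with hk
  have hkc : HasCompactSupport k := by
    refine HasCompactSupport.intro (isCompact_closedBall (0 : C2) δ) fun w hw => ?_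
    by_contra h
    apply hw
    have h1 := K2_norm_lt _ (K2_supp hχ _ h)
    rw [norm_neg, norm_smul, norm_inv, Real.norm_of_nonneg hδ.le, inv_mul_lt_iff₀ hδ, mul_one] at h1
    rw [mem_closedBall_zero_iff]
    exact h1.le
  have hks : ContDiff ℝ ∞ k := hχ.1.comp ((contDiff_const_smul (δ⁻¹ : ℝ)).neg)
  have hloc : LocallyIntegrable v (volume : Measure C2) := by
    refine (locallyIntegrable_const m).mono hv.aestronglyMeasurable (Eventually.of_forall fun z => ?_)
    rw [Real.norm_eq_abs, Real.norm_eq_abs]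
    exact (hb z).trans (le_abs_self m)
  have hconv : ContDiff ℝ ∞ (convolution v k (ContinuousLinearMap.mul ℝ ℝ) volume) :=
    hkc.contDiff_convolution_right _ hloc hks
  have e : cv χ v δ = fun x => |(δ ^ Module.finrank ℝ C2)⁻¹| *
      (convolution v k (ContinuousLinearMap.mul ℝ ℝ) volume) x := by
    funext x
    have h1 := Measure.integral_comp_smul (volume : Measure C2)
      (fun z => χ (δ⁻¹ • z) * v (x + z)) δ
    have h2 : ∀ y : C2, δ⁻¹ • δ • y = y := fun y => by
      rw [smul_smul, inv_mul_cancel₀ hδ.ne', one_smul]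
    simp only [h2] at h1
    unfold cv
    rw [h1, smul_eq_mul]
    congr 1
    have h3 := integral_add_left_eq_self (μ := (volume : Measure C2))
      (fun t => v t * k (x - t)) x
    rw [convolution_def]
    simp only [ContinuousLinearMap.mul_apply']
    rw [← h3]
    congr 1
    funext z
    rw [hk]
    simp only [sub_add_cancel_left, smul_neg, neg_neg]
    ring
  rw [e]
  exact contDiff_const.mul hconv

theorem K2_rot {χ : C2 → ℝ} (hχ : IsKer χ) (v : C2 → ℝ) (x : C2) (δ θ : ℝ) :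
    cv χ v δ x = ∫ y, χ y * v (x + cexp (θ * I) • (δ • y)) := by
  have hemb : MeasurableEmbedding (fun ξ : C2 => cexp (θ * I) • ξ) :=
    (Homeomorph.smulOfNeZero (cexp (θ * I)) (Complex.exp_ne_zero _)).measurableEmbedding
  have h := (K2_mp θ).integral_comp hemb (fun y => χ y * v (x + δ • y))
  unfold cv
  rw [← h]
  congr 1
  funext y
  rw [hχ.2.2.2.2 _ y (Complex.norm_exp_ofReal_mul_I θ), smul_comm]

theorem K2_avg {χ v : C2 → ℝ} (hχ : IsKer χ) (hv : Measurable v) {m : ℝ}
    (hb : ∀ z, |v z| ≤ m) (x : C2) (δ : ℝ) :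
    Integrable (fun y => χ y * mean v x (δ • y)) ∧
    cv χ v δ x = ∫ y, χ y * mean v x (δ • y) := by
  have hF : Measurable (fun p : C2 × ℝ => v (x + cexp (p.2 * I) • (δ • p.1))) := by
    apply hv.comp
    apply Continuous.measurable
    fun_prop
  have h := K2_fub (K2_integrable hχ) _ hF (m := m) (fun p => hb _)
  refine ⟨h.1, ?_⟩
  have h2 : cv χ v δ x = (2 * π)⁻¹ * ∫ θ in (0 : ℝ)..(2 * π), cv χ v δ x := by
    rw [intervalIntegral.integral_const, sub_zero, smul_eq_mul]
    field_simp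
  rw [h2]
  have h3 : ∀ θ : ℝ, cv χ v δ x = ∫ y, χ y * v (x + cexp (θ * I) • (δ • y)) :=
    fun θ => K2_rot hχ v x δ θ
  have h4 := h.2
  simp only at h4
  unfold mean
  rw [← h4]
  congr 1
  apply intervalIntegral.integral_congr
  intro θ _
  exact h3 θ

theorem K2_sub {χ v : C2 → ℝ} (hχ : IsKer χ) (hv : Measurable v) {m : ℝ}
    (hb : ∀ z, |v z| ≤ m) (x ξ : C2) (δ : ℝ) :
    Integrable (fun y => χ y * mean v (x + δ • y) ξ) ∧
    mean (cv χ v δ) x ξ = ∫ y, χ y * mean v (x + δ • y) ξ := by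
  have hF : Measurable (fun p : C2 × ℝ => v (x + δ • p.1 + cexp (p.2 * I) • ξ)) := by
    apply hv.comp
    apply Continuous.measurable
    fun_prop
  have h := K2_fub (K2_integrable hχ) _ hF (m := m) (fun p => hb _)
  refine ⟨h.1, ?_⟩
  have h4 := h.2
  simp only at h4
  unfold mean
  rw [← h4]
  congr 1
  apply intervalIntegral.integral_congr
  intro θ _
  simp only [cv]
  congr 1
  funext y
  rw [add_right_comm]

theorem K2_mean_congr {u v : C2 → ℝ} {x ξ : C2}
    (h : ∀ θ : ℝ, v (x + cexp (θ * I) • ξ) = u (x + cexp (θ * I) • ξ)) :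
    mean v x ξ = mean u x ξ := by
  unfold mean
  congr 1
  apply intervalIntegral.integral_congr
  intro θ _
  exact h θ

theorem K2 (hK1 : K1_stmt) : K2_stmt := by
  intro χ U K u hχ hU hu hK hKU
  obtain ⟨husc, hbdd, hsub⟩ := id hu
  obtain ⟨d, hd, hdU⟩ := hK.exists_cthickening_subset_open hU hKU
  have hKc : IsCompact (Metric.cthickening d K) := hK.cthickening
  obtain ⟨m, hm⟩ := hbdd _ hdU hKc
  set W2 : Set C2 := Metric.thickening d K with hW2
  have hW2o : IsOpen W2 := Metric.isOpen_thickening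
  have hW2c : W2 ⊆ Metric.cthickening d K := Metric.thickening_subset_cthickening d K
  have hW2U : W2 ⊆ U := hW2c.trans hdU
  set v : C2 → ℝ := W2.indicator u with hv
  have hvm : Measurable v := K2_meas hU hW2o hW2U husc
  have hvu : ∀ z ∈ W2, v z = u z := fun z hz => indicator_of_mem hz u
  have hvb : ∀ z, |v z| ≤ |m| := by
    intro z
    by_cases hz : z ∈ W2
    · rw [hvu z hz]
      exact (hm z (hW2c hz)).trans (le_abs_self m)
    · rw [hv, indicator_of_notMem hz, abs_zero]
      exact abs_nonneg m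
  -- geometry
  have hgeo : ∀ x ∈ Metric.thickening (d / 2) K, ∀ w : C2, ‖w‖ < d / 2 → x + w ∈ W2 := by
    intro x hx w hw
    obtain ⟨z, hz, hxz⟩ := Metric.mem_thickening_iff.mp hx
    rw [hW2, Metric.mem_thickening_iff]
    refine ⟨z, hz, ?_⟩
    have h1 : dist (x + w) x = ‖w‖ := by rw [dist_eq_norm]; simp
    have h2 := dist_triangle (x + w) x z
    linarith
  have hsmall : ∀ δ : ℝ, 0 ≤ δ → δ ≤ d / 2 → ∀ y : C2, χ y ≠ 0 → ‖δ • y‖ < d / 2 := by
    intro δ h0 h1 y hy
    have h2 := K2_norm_lt y (K2_supp hχ y hy)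
    rw [norm_smul, Real.norm_of_nonneg h0]
    rcases eq_or_lt_of_le h0 with h3 | h3
    · rw [← h3, zero_mul]; linarith
    · nlinarith [norm_nonneg y]
  have hmem : ∀ x ∈ Metric.thickening (d / 2) K, ∀ δ : ℝ, 0 ≤ δ → δ ≤ d / 2 → ∀ y : C2, χ y ≠ 0 →
      x + δ • y ∈ W2 := fun x hx δ h0 h1 y hy => hgeo x hx _ (hsmall δ h0 h1 y hy)
  have hcv : ∀ x ∈ Metric.thickening (d / 2) K, ∀ δ : ℝ, 0 ≤ δ → δ ≤ d / 2 →
      cv χ u δ x = cv χ v δ x := by
    intro x hx δ h0 h1
    unfold cv
    congr 1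
    funext y
    by_cases hy : χ y = 0
    · rw [hy, zero_mul, zero_mul]
    · rw [hvu _ (hmem x hx δ h0 h1 y hy)]
  -- discs
  have hdisc1 : ∀ x ∈ Metric.thickening (d / 2) K, ∀ δ : ℝ, 0 ≤ δ → δ ≤ d / 2 → ∀ y : C2,
      χ y ≠ 0 → disc x (δ • y) ⊆ W2 := by
    rintro x hx δ h0 h1 y hy _ ⟨ζ, hζ, rfl⟩
    apply hgeo x hx
    rw [norm_smul]
    have h2 := hsmall δ h0 h1 y hy
    nlinarith [norm_nonneg (δ • y), norm_nonneg ζ]
  have hcirc : ∀ (x ξ : C2), disc x ξ ⊆ W2 → mean v x ξ = mean u x ξ := by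
    intro x ξ h
    apply K2_mean_congr
    intro θ
    apply hvu
    apply h
    exact ⟨cexp (θ * I), by rw [Complex.norm_exp_ofReal_mul_I], rfl⟩
  have hWU : Metric.thickening (d / 2) K ⊆ W2 := Metric.thickening_mono (by linarith) K
  have hχi := K2_integrable hχ
  have hlow : ∀ x ∈ Metric.thickening (d / 2) K, ∀ δ : ℝ, 0 < δ → δ ≤ d / 2 →
      u x ≤ cv χ u δ x := by
    intro x hx δ h0 h1
    rw [hcv x hx δ h0.le h1, (K2_avg hχ hvm hvb x δ).2]
    have h2 : u x = ∫ y, χ y * u x := by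
      rw [MeasureTheory.integral_mul_const, hχ.2.2.2.1, one_mul]
    rw [h2]
    apply MeasureTheory.integral_mono (hχi.mul_const _) (K2_avg hχ hvm hvb x δ).1
    intro y
    simp only
    by_cases hy : χ y = 0
    · rw [hy, zero_mul, zero_mul]
    · apply mul_le_mul_of_nonneg_left _ (hχ.2.1 y)
      rw [hcirc _ _ (hdisc1 x hx δ h0.le h1 y hy)]
      exact hsub _ _ ((hdisc1 x hx δ h0.le h1 y hy).trans hW2U)
  refine ⟨Metric.thickening (d / 2) K, d / 2, Metric.isOpen_thickening,
    Metric.self_subset_thickening (by linarith) K, hWU.trans hW2U, by linarith, ?_, ?_, hlow, ?_⟩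
  · intro δ h0 h1
    have hs : ContDiffOn ℝ ∞ (cv χ u δ) (Metric.thickening (d / 2) K) :=
      (K2_smooth hχ hvm hvb h0).contDiffOn.congr fun x hx => hcv x hx δ h0.le h1
    refine ⟨hs, hs.continuousOn, ?_⟩
    intro x ξ hdisc
    have hx : x ∈ Metric.thickening (d / 2) K := hdisc ⟨0, by simp, by simp⟩
    have h2 : mean (cv χ u δ) x ξ = mean (cv χ v δ) x ξ := by
      apply (K2_mean_congr _).symm
      intro θ
      apply (hcv _ _ δ h0.le h1).symm
      apply hdisc
      exact ⟨cexp (θ * I), by rw [Complex.norm_exp_ofReal_mul_I], rfl⟩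
    rw [h2, (K2_sub hχ hvm hvb x ξ δ).2, hcv x hx δ h0.le h1]
    unfold cv
    have hint : Integrable (fun y => χ y * v (x + δ • y)) := by
      apply K2_mul hχi _ (fun y => hvb _)
      apply hvm.comp
      apply Continuous.measurable
      fun_prop
    apply MeasureTheory.integral_mono hint (K2_sub hχ hvm hvb x ξ δ).1
    intro y
    simp only
    by_cases hy : χ y = 0
    · rw [hy, zero_mul, zero_mul]
    · apply mul_le_mul_of_nonneg_left _ (hχ.2.1 y)
      have h3 : disc (x + δ • y) ξ ⊆ W2 := by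
        rintro _ ⟨ζ, hζ, rfl⟩
        rw [add_right_comm]
        exact hgeo _ (hdisc ⟨ζ, hζ, rfl⟩) _ (hsmall δ h0.le h1 y hy)
      rw [hcirc _ _ h3, hvu _ (hmem x hx δ h0.le h1 y hy)]
      exact hsub _ _ (h3.trans hW2U)
  · intro x hx δ δ' h0 h1 h2
    have h0' : 0 < δ' := h0.trans_le h1
    rw [hcv x hx δ h0.le (h1.trans h2), hcv x hx δ' h0'.le h2, (K2_avg hχ hvm hvb x δ).2,
      (K2_avg hχ hvm hvb x δ').2]
    apply MeasureTheory.integral_mono (K2_avg hχ hvm hvb x δ).1 (K2_avg hχ hvm hvb x δ').1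
    intro y
    simp only
    by_cases hy : χ y = 0
    · rw [hy, zero_mul, zero_mul]
    · apply mul_le_mul_of_nonneg_left _ (hχ.2.1 y)
      have d1 := hdisc1 x hx δ h0.le (h1.trans h2) y hy
      have d2 := hdisc1 x hx δ' h0'.le h2 y hy
      rw [hcirc _ _ d1, hcirc _ _ d2]
      have h3 := hK1.1 U u x (δ' • y) (δ / δ') 1 hU hu (d2.trans hW2U) (by positivity)
        ((div_le_one h0').2 h1) le_rfl
      rw [smul_smul, one_smul, div_mul_cancel₀ _ h0'.ne'] at h3
      exact h3
  · intro x hx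
    rw [Metric.tendsto_nhdsWithin_nhds]
    intro ε hε
    have h1 := husc x (hW2U (hWU hx)) (u x + ε / 2) (by linarith)
    rw [hU.nhdsWithin_eq (hW2U (hWU hx))] at h1
    obtain ⟨η, hη, hη2⟩ := Metric.eventually_nhds_iff.1 h1
    refine ⟨min η (d / 2), lt_min hη (by linarith), ?_⟩
    intro δ h0 hδ
    have h0' : 0 < δ := h0
    rw [Real.dist_eq, sub_zero, abs_of_pos h0', lt_min_iff] at hδ
    have hl := hlow x hx δ h0' hδ.2.le
    have hup : cv χ u δ x ≤ u x + ε / 2 := by
      rw [hcv x hx δ h0'.le hδ.2.le]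
      have h2 : u x + ε / 2 = ∫ y, χ y * (u x + ε / 2) := by
        rw [MeasureTheory.integral_mul_const, hχ.2.2.2.1, one_mul]
      rw [h2]
      unfold cv
      have hint : Integrable (fun y => χ y * v (x + δ • y)) := by
        apply K2_mul hχi _ (fun y => hvb _)
        apply hvm.comp
        apply Continuous.measurable
        fun_prop
      apply MeasureTheory.integral_mono hint (hχi.mul_const _)
      intro y
      simp only
      by_cases hy : χ y = 0
      · rw [hy, zero_mul, zero_mul]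
      · apply mul_le_mul_of_nonneg_left _ (hχ.2.1 y)
        rw [hvu _ (hmem x hx δ h0'.le hδ.2.le y hy)]
        apply le_of_lt
        apply hη2
        rw [dist_eq_norm, add_sub_cancel_left, norm_smul, Real.norm_of_nonneg h0'.le]
        have h3 := K2_norm_lt y (K2_supp hχ y hy)
        nlinarith [norm_nonneg y]
    rw [Real.dist_eq, abs_of_nonneg (by linarith)]
    linarith

end

end MAP
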